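import Pool.Agent.H144.CY.Stm

/-! Copy of the module of helper633 (`Pool/Agent/H633/CY`), kept here so that the hand-in
`MP_0430e4_lc.TwoSidedGroupCodes` does not depend on later changes there. -/

/-! Part AVG of the project CY, written by helper729. -/

set_option autoImplicit false

namespace Pool.Agent.H144.CY.AVG

open Finset Pool.Agent.H144.CY

theorem t_avg : S_AVG := by
  intro F _ _ _ A _ D hD
  classical
  have : Fintype D := Fintype.ofFinite _
  obtain ⟨q, hqdef⟩ : ∃ q, q = Fintype.card F := ⟨_, rfl⟩
  obtain ⟨N, hNdef⟩ : ∃ N, N = Fintype.card D := ⟨_, rfl⟩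
  obtain ⟨m, hm⟩ : ∃ m, m = Fintype.card A := ⟨_, rfl⟩
  have hN : N = q ^ Module.finrank F D := by
    rw [hNdef, hqdef]
    exact Module.card_eq_pow_finrank
  have hq : 2 ≤ q := by
    rw [hqdef]
    exact Fintype.one_lt_card
  have hN2 : q ^ 2 ≤ N := by
    rw [hN]
    exact Nat.pow_le_pow_right (by omega) hD
  have hz : ∀ a : A, N ≤ q * (univ.filter fun f : D => (f : A → F) a = 0).card := by
    intro a
    have h1 : N = ∑ c : F, (univ.filter fun f : D => (f : A → F) a = c).card := by
      rw [hNdef, ← Finset.card_univ]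
      exact Finset.card_eq_sum_card_fiberwise (f := fun f : D => (f : A → F) a) (t := univ)
        (by simp)
    have h2 : ∀ c : F, (univ.filter fun f : D => (f : A → F) a = c).card ≤
        (univ.filter fun f : D => (f : A → F) a = 0).card := by
      intro c
      by_cases hc : ∃ f0 : D, (f0 : A → F) a = c
      · obtain ⟨f0, hf0⟩ := hc
        apply Finset.card_le_card_of_injOn (fun f => f - f0)
        · intro f hf
          have hf' : (f : A → F) a = c := by simpa using hf
          simp [hf', hf0]
        · intro x _ y _ h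
          exact sub_left_injective h
      · have : (univ.filter fun f : D => (f : A → F) a = c) = ∅ := by
          rw [Finset.filter_eq_empty_iff]
          intro f _ hf
          exact hc ⟨f, hf⟩
        rw [this]
        simp
    rw [h1, hqdef]
    calc ∑ c : F, (univ.filter fun f : D => (f : A → F) a = c).card
        ≤ ∑ _c : F, (univ.filter fun f : D => (f : A → F) a = 0).card :=
          Finset.sum_le_sum fun c _ => h2 c
      _ = _ := by simp
  by_contra hcon
  have hcon' : ∀ f : D, f ≠ 0 → q * m + 1 ≤ (q + 1) * hammingNorm (f : A → F) := by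
    intro f hf
    by_contra hlt
    refine hcon ⟨f, f.2, fun h => hf (Subtype.ext h), ?_⟩
    rw [← hqdef, ← hm]
    omega
  obtain ⟨S, hSdef⟩ : ∃ S, S = ∑ f : D, hammingNorm (f : A → F) := ⟨_, rfl⟩
  have hS : S = ∑ a : A, (univ.filter fun f : D => (f : A → F) a ≠ 0).card := by
    rw [hSdef]
    simp only [hammingNorm, Finset.card_filter]
    exact Finset.sum_comm
  have hb : q * S + m * N ≤ m * (q * N) := by
    have h1 : ∀ a : A, q * (univ.filter fun f : D => (f : A → F) a ≠ 0).card + N ≤ q * N := by
      intro a
      have h2 := hz a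
      have h3 : (univ.filter fun f : D => (f : A → F) a = 0).card +
          (univ.filter fun f : D => (f : A → F) a ≠ 0).card = N := by
        rw [hNdef, ← Finset.card_univ]
        exact Finset.card_filter_add_card_filter_not (s := (univ : Finset D))
          (fun f : D => (f : A → F) a = 0)
      calc q * (univ.filter fun f : D => (f : A → F) a ≠ 0).card + N
          ≤ q * (univ.filter fun f : D => (f : A → F) a ≠ 0).card +
            q * (univ.filter fun f : D => (f : A → F) a = 0).card := by omega
        _ = q * ((univ.filter fun f : D => (f : A → F) a = 0).card +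
            (univ.filter fun f : D => (f : A → F) a ≠ 0).card) := by ring
        _ = q * N := by rw [h3]
    have h4 := Finset.sum_le_sum fun (a : A) (_ : a ∈ (univ : Finset A)) => h1 a
    rw [Finset.sum_add_distrib, ← Finset.mul_sum, ← hS] at h4
    simpa [hm] using h4
  have hlow : (N - 1) * (q * m + 1) ≤ (q + 1) * S := by
    have h1 : ∑ f ∈ (univ : Finset D).erase 0, (q * m + 1) ≤
        ∑ f ∈ (univ : Finset D).erase 0, (q + 1) * hammingNorm (f : A → F) :=
      Finset.sum_le_sum fun f hf => hcon' f (Finset.ne_of_mem_erase hf)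
    have h2 : ∑ f ∈ (univ : Finset D).erase 0, (q + 1) * hammingNorm (f : A → F) ≤
        ∑ f : D, (q + 1) * hammingNorm (f : A → F) :=
      Finset.sum_le_sum_of_subset (Finset.erase_subset _ _)
    have h3 : ((univ : Finset D).erase 0).card = N - 1 := by
      rw [Finset.card_erase_of_mem (Finset.mem_univ _), Finset.card_univ, hNdef]
    rw [Finset.sum_const, h3, smul_eq_mul] at h1
    have h4 : ∑ f : D, (q + 1) * hammingNorm (f : A → F) = (q + 1) * S := by
      rw [hSdef, Finset.mul_sum]
    exact (h1.trans h2).trans h4.le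
  have hN4 : 4 ≤ N := by nlinarith
  obtain ⟨M, hM⟩ : ∃ M, N = M + 1 := ⟨N - 1, by omega⟩
  rw [hM, Nat.add_sub_cancel] at hlow
  rw [hM] at hb hN2 hN4
  have k1 : q * (M * (q * m + 1)) ≤ q * ((q + 1) * S) := Nat.mul_le_mul_left _ hlow
  have k2 : (q + 1) * (q * S + m * (M + 1)) ≤ (q + 1) * (m * (q * (M + 1))) :=
    Nat.mul_le_mul_left _ hb
  have k3 : m * q ^ 2 ≤ m * (M + 1) := Nat.mul_le_mul_left _ hN2
  have k4 : 0 < q * M := Nat.mul_pos (by omega) (by omega)
  nlinarith

end Pool.Agent.H144.CY.AVG
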