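import Pool.Agent.H144.CY.Stm
import Pool.Graph.R_seed8.Y829.SB4

/-! Copy of the module of helper633 (`Pool/Agent/H633/CY`), kept here so that the hand-in
`MP_0430e4_lc.TwoSidedGroupCodes` does not depend on later changes there. -/

/-! Part LEG of the project CY, written by helper935. -/

/-!
# CY LEG: Legendre's formula with the theorem of Siegel and Walfisz
-/

set_option autoImplicit false

namespace Pool.Agent.H144.CY.LEG

open Finset Pool.Agent.H144.CY

/-- The primes `p` of `(U, 2 U]`, congruent to `a` modulo `w`, with `p - 1` free of `T`. -/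
def AA (U w a : ℕ) (T : Finset ℕ) : Finset ℕ :=
  (Ioc U (2 * U)).filter (fun p : ℕ => p.Prime ∧ p ≡ a [MOD w] ∧ ∀ t ∈ T, ¬ t ∣ p - 1)

theorem AA_insert {U w a a' t : ℕ} {T : Finset ℕ} (ht : t.Prime) (htw : ¬ t ∣ w)
    (h1 : a' ≡ a [MOD w]) (h2 : a' ≡ 1 [MOD t]) :
    (AA U w a T).card = (AA U w a (insert t T)).card + (AA U (w * t) a' T).card := by
  have hco : w.Coprime t := ((Nat.Prime.coprime_iff_not_dvd ht).2 htw).symm
  have e1 : AA U w a (insert t T) = (AA U w a T).filter (fun p => ¬ t ∣ p - 1) := by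
    ext p
    simp only [AA, mem_filter, mem_insert, forall_eq_or_imp]
    tauto
  have e2 : AA U (w * t) a' T = (AA U w a T).filter (fun p => t ∣ p - 1) := by
    ext p
    simp only [AA, mem_filter]
    constructor
    · rintro ⟨p1, p2, p3, p4⟩
      obtain ⟨q1, q2⟩ := (Nat.modEq_and_modEq_iff_modEq_mul hco).2 p3
      exact ⟨⟨p1, p2, q1.trans h1, p4⟩,
        (Nat.modEq_iff_dvd' p2.one_lt.le).1 (q2.trans h2).symm⟩
    · rintro ⟨⟨p1, p2, p3, p4⟩, p5⟩
      refine ⟨p1, p2, (Nat.modEq_and_modEq_iff_modEq_mul hco).1 ⟨p3.trans h1.symm, ?_⟩, p4⟩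
      exact ((Nat.modEq_iff_dvd' p2.one_lt.le).2 p5).symm.trans h2.symm
  rw [e1, e2, add_comm]
  exact (card_filter_add_card_filter_not (fun p => t ∣ p - 1)).symm

theorem main (C K x0 : ℕ) (hsw : ∀ U : ℕ, x0 ≤ U → ∀ q a : ℕ, 1 ≤ q →
    (q : ℝ) ≤ Real.log U ^ C → a.Coprime q →
    |((((Ioc U (2 * U)).filter Nat.Prime).filter (fun p => p ≡ a [MOD q])).card : ℝ) -
      ((Ioc U (2 * U)).filter Nat.Prime).card / (Nat.totient q : ℝ)| ≤ U / Real.log U ^ K)
    (U : ℕ) (hU : x0 ≤ U) (T : Finset ℕ) : ∀ (w a : ℕ),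
    1 ≤ w → a.Coprime w → (∀ t ∈ T, t.Prime ∧ ¬ t ∣ w) →
    ((w * ∏ t ∈ T, t : ℕ) : ℝ) ≤ Real.log U ^ C →
    |((AA U w a T).card : ℝ)
      - ((((Ioc U (2 * U)).filter Nat.Prime).card : ℕ) : ℝ) / (w.totient : ℝ) *
      ∏ t ∈ T, (1 - 1 / ((t : ℝ) - 1))| ≤ 2 ^ T.card * (U / Real.log U ^ K) := by
  induction T using Finset.induction_on with
  | empty =>
    intro w a hw ha _ hle
    have h := hsw U hU w a hw (by simpa using hle) ha
    have e1 : AA U w a ∅ = ((Ioc U (2 * U)).filter Nat.Prime).filter (fun p => p ≡ a [MOD w]) := by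
      ext p
      simp only [AA, mem_filter, notMem_empty]
      tauto
    rw [e1, prod_empty, mul_one, card_empty, pow_zero, one_mul]
    exact h
  | insert t T htT ih =>
    intro w a hw ha hT hle
    obtain ⟨ht, htw⟩ := hT t (mem_insert_self t T)
    have hT' : ∀ t' ∈ T, t'.Prime ∧ ¬ t' ∣ w := fun t' h => hT t' (mem_insert_of_mem h)
    have hco : w.Coprime t := ((Nat.Prime.coprime_iff_not_dvd ht).2 htw).symm
    obtain ⟨a', ha'1, ha'2⟩ := Nat.chineseRemainder hco a 1
    have hprod : ∏ t' ∈ insert t T, t' = t * ∏ t' ∈ T, t' := prod_insert htT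
    rw [hprod] at hle
    have h1 := ih w a hw ha hT' (by
      refine le_trans ?_ hle
      have : w * ∏ t' ∈ T, t' ≤ w * (t * ∏ t' ∈ T, t') :=
        Nat.mul_le_mul_left _ (Nat.le_mul_of_pos_left _ ht.pos)
      exact_mod_cast this)
    have h2 := ih (w * t) a' (Nat.mul_pos hw ht.pos)
      (by
        refine Nat.Coprime.mul_right ?_ ?_
        · have := ha'1.gcd_eq
          unfold Nat.Coprime at ha ⊢
          rw [this, ha]
        · have := ha'2.gcd_eq
          unfold Nat.Coprime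
          rw [this, Nat.gcd_one_left])
      (by
        intro t' h
        obtain ⟨p1, p2⟩ := hT' t' h
        refine ⟨p1, fun hd => ?_⟩
        rcases (Nat.Prime.dvd_mul p1).1 hd with h3 | h3
        · exact p2 h3
        · have h4 := (Nat.prime_dvd_prime_iff_eq p1 ht).1 h3
          exact htT (h4 ▸ h))
      (by
        refine le_trans (le_of_eq ?_) hle
        rw [Nat.mul_assoc])
    have hc := AA_insert (U := U) (T := T) ht htw ha'1 ha'2
    rw [prod_insert htT, card_insert_of_notMem htT]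
    have hφ : ((w * t).totient : ℝ) = w.totient * ((t : ℝ) - 1) := by
      rw [Nat.totient_mul hco, Nat.totient_prime ht]
      push_cast [Nat.cast_sub ht.one_lt.le]
      ring
    rw [hφ] at h2
    have hc' : ((AA U w a T).card : ℝ) =
        ((AA U w a (insert t T)).card : ℝ) + ((AA U (w * t) a' T).card : ℝ) := by
      exact_mod_cast hc
    have hW : (0 : ℝ) < w.totient := by exact_mod_cast Nat.totient_pos.2 hw
    have ht1 : (0 : ℝ) < (t : ℝ) - 1 := by
      have : (1 : ℝ) < t := by exact_mod_cast ht.one_lt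
      linarith
    obtain ⟨P, hP⟩ : ∃ P : ℝ, P = ∏ t ∈ T, (1 - 1 / ((t : ℝ) - 1)) := ⟨_, rfl⟩
    obtain ⟨N, hN⟩ : ∃ N : ℝ, N = ((((Ioc U (2 * U)).filter Nat.Prime).card : ℕ) : ℝ) := ⟨_, rfl⟩
    rw [← hP, ← hN] at h1 h2 ⊢
    have e3 : ((AA U w a (insert t T)).card : ℝ) - N / w.totient * ((1 - 1 / ((t : ℝ) - 1)) * P) =
        (((AA U w a T).card : ℝ) - N / w.totient * P) -
          (((AA U (w * t) a' T).card : ℝ) - N / (w.totient * ((t : ℝ) - 1)) * P) := by
      rw [hc']
      field_simp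
      ring
    rw [e3]
    refine (abs_sub _ _).trans ?_
    rw [pow_succ]
    linarith

theorem t_leg : S_LEG := by
  intro C K
  obtain ⟨x0, -, hx0⟩ := Pool.Agent.Y829.SB.sw C K
  refine ⟨x0, fun U hU w a T hw ha hT hle => ?_⟩
  exact main C K x0 (fun U hU q a hq hqU ha => hx0 U hU q a hq hqU ha) U hU T w a hw ha hT hle

end Pool.Agent.H144.CY.LEG
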