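import Mathlib

/-! Copy of the module of helper633 (`Pool/Agent/H633/CY`), kept here so that the hand-in
`MP_0430e4_lc.TwoSidedGroupCodes` does not depend on later changes there. -/

set_option autoImplicit false

/-!
# Cyclic and abelian codes of almost all lengths: definitions and statements of the parts

Main theorem (MP_bd7042_lc, MP_0430e4_lc; helper633): let `F` be a finite field with `q`
elements.  For almost all `n` every translation-invariant subspace `C` of `F ^ G`, `G` an abelian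
group of order `n`, with `dim C ≥ n / log log n` contains a nonzero word of weight at most
`n * exp (-(log log n) ^ (1 - η))`.

`S_X : Prop` is the statement of the part `X`; its paper proof is in the docstring.
-/

namespace Pool.Agent.H144.CY

open Finset

/-- Translation-invariant subspaces of `F ^ G` (abelian codes; cyclic codes for `G = ℤ / n`). -/
def TransInv {F G : Type} [Field F] [AddCommGroup G] (C : Submodule F (G → F)) : Prop :=
  ∀ g : G, ∀ c ∈ C, (fun x => c (x + g)) ∈ C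

/-- `p` is a good prime for the length `n` and the field with `q` elements. -/
def GoodP (q n p : ℕ) : Prop :=
  p.Prime ∧ p ∣ n ∧ ¬ p ^ 2 ∣ n ∧ ¬ p ∣ q * (q - 1) ∧
    ∃ s : ℕ, q ^ s ≡ q [MOD p] ∧ ∀ m : ℕ, m ∣ n / p → m.Coprime q → q ^ s ≡ 1 [MOD m]

/-- Functions on `G` invariant under the translations by the elements killed by `p`. -/
def Inv (F G : Type) [Field F] [AddCommGroup G] (p : ℕ) : Submodule F (G → F) where
  carrier := {c | ∀ a : G, p • a = 0 → ∀ x, c (x + a) = c x}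
  add_mem' := by
    intro c d hc hd a ha x
    simp only [Pi.add_apply]
    rw [hc a ha x, hd a ha x]
  zero_mem' := by
    intro a _ x
    rfl
  smul_mem' := by
    intro r c hc a ha x
    simp only [Pi.smul_apply]
    rw [hc a ha x]

/-! ## Algebra -/

/-- AVG. A subspace `D` of `F ^ A` of dimension at least two contains a nonzero word `f` with
`(q + 1) wt f ≤ q |A|`.
Proof. For every coordinate `a` the number of `f ∈ D` with `f a ≠ 0` is at most
`|D| (q - 1) / q` (the kernel of the evaluation has at least `|D| / q` elements). So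
`q ∑ wt f ≤ |A| (q - 1) |D|`. If every nonzero `f` had `(q + 1) wt f > q |A|` then
`(|D| - 1) q |A| q < (q + 1) |A| (q - 1) |D|`, that is `|D| < q ^ 2`. -/
def S_AVG : Prop := ∀ (F : Type) [Field F] [Fintype F] [DecidableEq F] (A : Type) [Fintype A]
  (D : Submodule F (A → F)), 2 ≤ Module.finrank F D →
  ∃ f ∈ D, f ≠ 0 ∧ (Fintype.card F + 1) * hammingNorm f ≤ Fintype.card F * Fintype.card A

/-- IDEM. The ring theoretic core. `R = F[A]`, `A` a group of prime order `p`, `q = |F|`, `p` does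
not divide `q (q - 1)`, `k` the order of `q` modulo `p`, `v ∈ R` a nonconstant function.
Then there are `e, x ∈ R` and `lam : R → F` with `e ≠ 0`, `e * ∑ [a] = 0`,
`∑_{i<k} (x z) ^ (q ^ i) = lam z • e` for all `z`, and `lam v ≠ 0`.

Proof. Put `Q = q ^ k`. Every `z ∈ R` satisfies `z ^ Q = z`
(`(∑ z_a [a]) ^ q = ∑ z_a [q a]`, since `R` has characteristic `ℓ`, `q` is a power of `ℓ` and
`z_a ^ q = z_a`; `q ^ k a = a`).
Let `e0 = p⁻¹ ∑ [a]` (idempotent, `e0 z` is a constant function for all `z`). Among the idempotents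
`e` with `e * ∑ [a] = 0` and `e v ≠ 0` (for instance `1 - e0`) choose one with the least number of
elements in `e R` (`R` is finite). It is primitive: if `y = y ^ 2`, `y e = y`, `y ≠ 0, e` then
`e v = y v + (e - y) v`, one of the two is nonzero, and `y R`, `(e - y) R` are smaller than `e R`.
For `z ∈ e R`, `z ≠ 0`: `z ^ (Q - 1)` is idempotent, lies in `e R`, and is nonzero as
`z ^ (Q - 1) z = z`; so `z ^ (Q - 1) = e`.
If `y ∈ e R` and `y ^ q = y` then `y = c e` with `c ∈ F`: otherwise all `y - c e` are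
nonzero elements of `e R`, so `∏_c (y - c e) ^ (Q - 1) = e ≠ 0`, but
`∏_c (y - c e) = e (y ^ q - y) = 0` (from `∏_c (X - c) = X ^ q - X`).
For `z ∈ e R` the element `T z = ∑_{i<k} z ^ (q ^ i)` satisfies `(T z) ^ q = T z`
(as `z ^ Q = z`), so `T z ∈ F e`.
There is `a ∈ A` with `T ([a] e) = e ∑_{i<k} [q ^ i a] ≠ 0`: take a maximal ideal `I` of `R` not
containing `e` and `φ : R → R / I` (a field), `φ e = 1`. The maps `a ↦ φ [q ^ i a]`, `i < k`, are
characters of `A` with values in the field `R / I`; they are distinct: otherwise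
`φ [(q ^ i - q ^ j) a] = 1` for all `a`, so `φ [a] = 1` for all `a` (`q ^ i - q ^ j` is a unit
modulo `p` up to the unit `q`), so `φ (∑ [a]) = p ≠ 0`, against `e * ∑ [a] = 0`. Distinct characters are
linearly independent (`linearIndependent_monoidHom` for `Multiplicative A`), so
`∑_{i<k} φ [q ^ i a] ≠ 0` for some `a`. (Another way: `∑ [a] = [0] + (sum over the orbits of the
multiplication by q)` and `e * ∑ [a] = 0`.)
Finally let `x = (e v) ^ (Q - 2) [a] e`: `x z ∈ e R` for all `z` and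
`x v = (e v) ^ (Q - 1) [a] = e [a]`. -/
def S_IDEM : Prop := ∀ (F : Type) [Field F] [Fintype F] (A : Type) [AddCommGroup A] [Fintype A]
  (p k : ℕ), p.Prime → Fintype.card A = p → ¬ p ∣ Fintype.card F * (Fintype.card F - 1) →
  k = orderOf ((Fintype.card F : ℕ) : ZMod p) →
  ∀ v : AddMonoidAlgebra F A, (∃ a a', v.coeff a ≠ v.coeff a') →
  ∃ (e x : AddMonoidAlgebra F A) (lam : AddMonoidAlgebra F A → F), e ≠ 0 ∧
    e * ∑ a : A, AddMonoidAlgebra.single a (1 : F) = 0 ∧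
    (∀ z, ∑ i ∈ range k, (x * z) ^ (Fintype.card F ^ i) = lam z • e) ∧ lam v ≠ 0

/-- ONE. Splitting off a tensor factor (from IDEM and AVG). -/
def S_ONE : Prop := ∀ (F : Type) [Field F] [Fintype F] [DecidableEq F] (A : Type) [AddCommGroup A]
  [Fintype A] (M : Type) [AddCommGroup M] [Module F M] (p : ℕ), p.Prime → Fintype.card A = p →
  ¬ p ∣ Fintype.card F * (Fintype.card F - 1) →
  ∀ C : Submodule F (A → M), (∀ a : A, ∀ c ∈ C, (fun x => c (x + a)) ∈ C) →
    (∀ c ∈ C, (fun x => c (Fintype.card F • x)) ∈ C) →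
  ∀ (l : M →ₗ[F] F) (c : A → M), c ∈ C → (∃ a a', l (c a) ≠ l (c a')) →
  ∃ f : A → F, f ≠ 0 ∧ (Fintype.card F + 1) * hammingNorm f ≤ Fintype.card F * p ∧
    ∃ m : M, l m ≠ 0 ∧ (fun x => f x • m) ∈ C

/-- FROB. An invariant subspace `C` of `F ^ G`, `|G|` prime to `q = |F|`, is closed under
`c ↦ c (q ^ s • ·)`.
Proof. It suffices to treat `s = 1`. View the functions as elements of `F[G]`
(`AddMonoidAlgebra F G`); `C` becomes an ideal `I`. For `r ∈ I`, `r ^ q ∈ I` and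
`r ^ q = ∑ r_u [q u]` (`sum_pow_char_pow`, `FiniteField.pow_card`), that is
`(r ^ q) (q • x) = r x` as `x ↦ q • x` is a bijection of `G`. So `r ↦ r ^ q` is an
injective self map of the finite set `I`, hence surjective: given `c` there is `d ∈ I` with
`d ^ q = c`, and then `d x = c (q • x)`. -/
def S_FROB : Prop := ∀ (F : Type) [Field F] [Fintype F] (G : Type) [AddCommGroup G] [Fintype G],
  (Fintype.card G).Coprime (Fintype.card F) →
  ∀ C : Submodule F (G → F), TransInv C →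
  ∀ c ∈ C, ∀ s : ℕ, (fun x => c (Fintype.card F ^ s • x)) ∈ C

/-- DEC. A finite abelian group of order `p m`, `p` a prime not dividing `m`, is the product of a
group of order `p` and a group of order `m`.
Proof. `A = {g | p g = 0}`, `B = {g | m g = 0}`; with `u p + v m = 1` the inverse of
`(a, b) ↦ a + b` is `g ↦ (v m g, u p g)`. The order of `A` is a power of `p` (Cauchy), the order of
`B` is prime to `p`. -/
def S_DEC : Prop := ∀ (G : Type) [AddCommGroup G] [Fintype G] (p m : ℕ), p.Prime →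
  Fintype.card G = p * m → ¬ p ∣ m →
  ∃ (A B : Type) (_ : AddCommGroup A) (_ : Fintype A) (_ : AddCommGroup B) (_ : Fintype B)
    (_ : (A × B) ≃+ G), Fintype.card A = p ∧ Fintype.card B = m

/-- DIM. Dimension of the sum of the spaces `Inv p`, `p ∈ S`.
Proof. For a prime `p` dividing `|G|` there is an element `u` of order `p`; the functions
invariant under `u` are the functions on `G ⧸ zmultiples u`, so `dim Inv p ≤ |G| / p`. -/
def S_DIM : Prop := ∀ (F : Type) [Field F] (G : Type) [AddCommGroup G] [Fintype G]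
  (S : Finset ℕ), (∀ p ∈ S, p.Prime ∧ p ∣ Fintype.card G) →
  Module.finrank F (⨆ p ∈ S, Inv F G p : Submodule F (G → F)) ≤ ∑ p ∈ S, Fintype.card G / p

/-- ELL. Removing the part of the order of `G` which is a power of the characteristic `ℓ`.
Proof. Induction on `|G|`. If `ℓ` does not divide `|G|` take `H = G`. Otherwise let `u` be an
element of order `ℓ` and `T c = c (· + u) - c` on `C`; `T ^ ℓ = 0` (characteristic `ℓ`), so
`dim C ≤ ℓ dim ker T` (`dim ker T^(i+1) ≤ dim ker T^i + dim ker T`). `ker T` is the space of the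
words of `C` with period `u`, i.e. the pull back of an invariant subspace `D1` of `F ^ G1`,
`G1 = G ⧸ zmultiples u`, and the pull back multiplies the weights by `ℓ`. Apply the induction
hypothesis to `G1`, `D1`. -/
def S_ELL : Prop := ∀ (F : Type) [Field F] [Fintype F] [DecidableEq F] (G : Type)
  [AddCommGroup G] [Fintype G] (C : Submodule F (G → F)), TransInv C →
  ∃ (H : Type) (_ : AddCommGroup H) (_ : Fintype H) (D : Submodule F (H → F)) (P : ℕ),
    Fintype.card G = P * Fintype.card H ∧ (∃ j : ℕ, P = ringChar F ^ j) ∧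
    (Fintype.card H).Coprime (Fintype.card F) ∧ TransInv D ∧
    Module.finrank F C ≤ P * Module.finrank F D ∧
    ∀ d ∈ D, d ≠ 0 → ∃ c ∈ C, c ≠ 0 ∧ hammingNorm c = P * hammingNorm d

/-- ALG1. The coprime case (from ONE, FROB, DEC). -/
def S_ALG1 : Prop := ∀ (F : Type) [Field F] [Fintype F] [DecidableEq F] (S : Finset ℕ) (G : Type)
  [AddCommGroup G] [Fintype G],
  (Fintype.card G).Coprime (Fintype.card F) →
  (∀ p ∈ S, GoodP (Fintype.card F) (Fintype.card G) p) →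
  ∀ C : Submodule F (G → F), TransInv C → ¬ C ≤ ⨆ p ∈ S, Inv F G p →
  ∃ c ∈ C, c ≠ 0 ∧ (Fintype.card F + 1) ^ S.card * hammingNorm c ≤
    Fintype.card F ^ S.card * Fintype.card G

/-- ALG. The algebraic main theorem (from ALG1, DIM, ELL). -/
def S_ALG : Prop := ∀ (F : Type) [Field F] [Fintype F] [DecidableEq F] (S : Finset ℕ) (G : Type)
  [AddCommGroup G] [Fintype G],
  (∀ p ∈ S, GoodP (Fintype.card F) (Fintype.card G) p) →
  ∀ C : Submodule F (G → F), TransInv C →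
  ∑ p ∈ S, Fintype.card G / p < Module.finrank F C →
  ∃ c ∈ C, c ≠ 0 ∧ (Fintype.card F + 1) ^ S.card * hammingNorm c ≤
    Fintype.card F ^ S.card * Fintype.card G

/-! ## Number theory -/

/-- LEG. Legendre's formula with the theorem of Siegel and Walfisz, for the primes in `(U, 2 U]`.
Proof. `∏_{t ∈ T} (1 - 1_{t ∣ p - 1}) = ∑_{D ⊆ T} (-1) ^ |D| 1_{∀ t ∈ D, t ∣ p - 1}`; by the Chinese
remainder theorem the conditions for `D` and `p ≡ a (mod w)` are one residue class, prime to the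
modulus `w ∏ D`, whose totient is `φ(w) ∏ (t - 1)`. Use the library theorem
`Pool.Agent.Y829.SB.sw` (module `Pool.Graph.R_seed8.Y829.SB4`) for each `D`. -/
def S_LEG : Prop := ∀ C K : ℕ, ∃ x0 : ℕ, ∀ U : ℕ, x0 ≤ U → ∀ (w a : ℕ) (T : Finset ℕ),
  1 ≤ w → a.Coprime w → (∀ t ∈ T, t.Prime ∧ ¬ t ∣ w) →
  ((w * ∏ t ∈ T, t : ℕ) : ℝ) ≤ Real.log U ^ C →
  |((((Ioc U (2 * U)).filter (fun p : ℕ => p.Prime ∧ p ≡ a [MOD w] ∧ ∀ t ∈ T, ¬ t ∣ p - 1)).card : ℕ) : ℝ)
    - ((((Ioc U (2 * U)).filter Nat.Prime).card : ℕ) : ℝ) / (w.totient : ℝ) *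
      ∏ t ∈ T, (1 - 1 / ((t : ℝ) - 1))| ≤ 2 ^ T.card * (U / Real.log U ^ K)

/-- MER. Two consequences of the theorems of Mertens (library:
`Pool.Agent.H305R2.mertens_inv_tendsto` in `Pool.Graph.R_seed8.H305R2.MertensM`,
`Pool.Agent.H305R2.mertens_three` in `Pool.Graph.R_seed8.H305R2.MertensE`).
(a) `∑ 1 / r` over the primes in `(v^(9/10), v^(11/5)]` tends to `log (22 / 9) = 0.8938...`, and
`1 / (r - 1) = 1 / r + 1 / (r (r - 1))`.
(b) `1 - 1 / (t - 1) ≥ (1 - 1 / t) ^ 2` for `t ≥ 3`, so the product is `≥ c / (log v) ^ 2`. -/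
def S_MER : Prop := ∃ c v0 : ℝ, 0 < c ∧ ∀ v : ℝ, v0 ≤ v →
  ∑ r ∈ (Ioc ⌊v ^ (9 / 10 : ℝ)⌋₊ ⌊v ^ (11 / 5 : ℝ)⌋₊).filter Nat.Prime, 1 / ((r : ℝ) - 1) ≤ 19 / 20 ∧
  c / Real.log v ^ 3 ≤ ∏ t ∈ (Icc 3 ⌊v ^ (9 / 10 : ℝ)⌋₊).filter Nat.Prime, (1 - 1 / ((t : ℝ) - 1))

open Classical in
/-- DYA. Lower bound for the number of the good primes in `(U, 2 U]`.
Proof (from LEG, MER and the library lemma `Pool.Agent.Y829.SB.HP_low`). Let
`L = log U`, `y0 = ⌊v^(9/10)⌋`, `y = ⌊v^(11/5)⌋`, `T` the odd primes `≤ y0` except `l`, `Π` the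
product over `T`. `v ≤ 3 log L`, so `4 l y 4^y0 ≤ L ^ 2` and `(1 + y) 2^y0 ≤ L` for large `v`
(`primorial_le_4_pow`). By LEG (`C = 2`, `K = 5`) with `w = 4 l`, `a = 4 l - 1` the number of primes
of `(U, 2U]` in the class of `-1` modulo `4 l` with `p - 1` free of the primes of `T` is
`≥ |HP| Π / φ(4 l) - 2^|T| U / L^5`, and for every prime `r ∈ (y0, y]` (`r ≠ l` for large `v`)
the number of those with `r ∣ p - 1` is `≤ |HP| Π / (φ(4 l) (r - 1)) + 2^|T| U / L^5` (`w = 4 l r`).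
Subtract the second for all `r`; MER (a) leaves `1 / 20` of the main term. If
`l` is odd then `4 l ∣ p + 1` implies that `l` does not divide `p - 1`. -/
def S_DYA : Prop := ∀ l : ℕ, l.Prime → ∃ c v0 : ℝ, 0 < c ∧ ∀ (v : ℝ) (U : ℕ), v0 ≤ v →
  v ≤ 3 * Real.log (Real.log U) →
  c * (U / (Real.log U * Real.log v ^ 3)) ≤
    ((((Ioc U (2 * U)).filter (fun p : ℕ => p.Prime ∧ 4 * l ∣ p + 1 ∧
      ∀ r : ℕ, r.Prime → 3 ≤ r → (r : ℝ) ≤ v ^ (11 / 5 : ℝ) → ¬ r ∣ p - 1)).card : ℕ) : ℝ)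

open Classical in
/-- The primes used for the lengths up to `N`. -/
noncomputable def PP (l N : ℕ) : Finset ℕ :=
  (Icc 1 ⌊Real.sqrt N⌋₊).filter (fun p : ℕ => p.Prime ∧ 4 * l ∣ p + 1 ∧
    ∀ r : ℕ, r.Prime → 3 ≤ r → (r : ℝ) ≤ Real.log (Real.log N) ^ (11 / 5 : ℝ) → ¬ r ∣ p - 1)

/-- LOW. Lower bound for `∑ 1 / p` (from DYA).
Proof. Let `u = log log N`. For `U = 2 ^ j` with `exp (√(log N)) ≤ U` and `2 U ≤ √N` one has
`log log U ≥ u / 2`, so DYA with `v = u` gives `∑_{p ∈ (U, 2 U]} 1 / p ≥ c / (2 log U (log u) ^ 3)`.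
Sum over `j` from `J1 ~ √(log N) / log 2` to `J2 ~ log N / (2 log 2) - 1`:
`∑ 1 / j ≥ log (J2 / J1) ≥ u / 2 - O(1)`. -/
def S_LOW : Prop := ∀ l : ℕ, l.Prime → ∀ η : ℝ, 0 < η → η < 1 → ∃ N0 : ℕ, ∀ N : ℕ, N0 ≤ N →
  Real.log (Real.log N) ^ (1 - η) ≤ ∑ p ∈ PP l N, (1 : ℝ) / p

/-- BTS. `∑ 1 / p` over the primes `p ≡ 1 (mod r)` up to `N`, uniformly in the prime `r`.
Proof. Library `Pool.Agent.Helper602.MK.BTLib.brun_titchmarsh` (in
`Pool.Graph.R_seed8.Helper602.MK.J3`): at most `2 C J / log J` of the numbers `1 + j r`, `j < J`, are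
prime. Dyadic intervals `2^i ≤ j < 2^(i+1)`: the sum is at most
`∑_{i ≤ log_2 N} (1 / (2^i r)) 2 C 2^(i+1) / ((i + 1) log 2)`, and
`log log N ≥ 1` for `N ≥ 16`. -/
def S_BTS : Prop := ∃ C : ℝ, 0 < C ∧ ∀ N : ℕ, 16 ≤ N → ∀ r : ℕ, r.Prime →
  ∑ p ∈ (Icc 1 N).filter (fun p : ℕ => p.Prime ∧ r ∣ p - 1), (1 : ℝ) / p ≤
    C * Real.log (Real.log N) / r

/-- TUR. Turán's inequality for a set of primes.
Proof. Let `ω n` be the number of `p ∈ P` dividing `n`, `E = ∑ 1 / p`.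
`∑_{n ≤ N} ω n ^ 2 ≤ N E + N E ^ 2`, `∑_{n ≤ N} ω n ≥ N E - |P|`, so
`∑ (ω n - E) ^ 2 ≤ N E + 2 E |P| ≤ 3 N E`. -/
def S_TUR : Prop := ∀ (N : ℕ) (P : Finset ℕ), (∀ p ∈ P, p.Prime) → P.card ≤ N →
  ((((Icc 1 N).filter (fun n => (((P.filter (fun p => p ∣ n)).card : ℕ) : ℝ) <
    (∑ p ∈ P, (1 : ℝ) / p) / 2)).card : ℕ) : ℝ) * ∑ p ∈ P, (1 : ℝ) / p ≤ 12 * N

/-- Collisions above `y`. -/
def Coll (y : ℝ) (n : ℕ) : Prop := ∃ r : ℕ, r.Prime ∧ y < r ∧ (r ^ 2 ∣ n ∨
  ∃ p p' : ℕ, p.Prime ∧ p'.Prime ∧ p ≠ p' ∧ r ∣ p - 1 ∧ r ∣ p' - 1 ∧ p * p' ∣ n)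

open Classical in
/-- COL. Few numbers have collisions (from BTS).
Proof. The number is at most `∑_{r > y} (N / r^2 + ∑_{p, p'} N / (p p'))`, `p, p' ≤ N` primes
`≡ 1 (mod r)`, which is `≤ N (1 + C^2 u^2) ∑_{r > y} 1 / r^2 ≤ 2 N (1 + C^2 u^2) / y`,
`u = log log N ≥ 1`. -/
def S_COL : Prop := ∃ C : ℝ, 0 < C ∧ ∀ N : ℕ, 16 ≤ N → ∀ y : ℝ, 1 ≤ y →
  ((((Icc 1 N).filter (fun n => Coll y n)).card : ℕ) : ℝ) ≤
    C * (N * Real.log (Real.log N) ^ 2 / y)

/-- GOOD. Primes without collisions are good.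
Proof. `q = l ^ f`. `p ≡ 3 (mod 4)`; `l` is a square modulo `p`: for `l = 2` since
`p ≡ 7 (mod 8)` (`ZMod.exists_sq_eq_two_iff`), for odd `l` by quadratic reciprocity as
`p ≡ -1 (mod l)`, `p ≡ 3 (mod 4)` (`ZMod.exists_sq_eq_prime_iff_of_mod_four_eq_one`,
`ZMod.exists_sq_eq_prime_iff_of_mod_four_eq_three`, `ZMod.exists_sq_eq_neg_one_iff`). So
`q ^ h ≡ 1 (mod p)`, `h = (p - 1) / 2` odd, `h ≥ 3`. A prime factor `r` of `h` is odd,
divides `p - 1`, so `r > y`; so `p > y ≥ q` and `p` does not divide `q (q - 1)`; `p ^ 2` does not divide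
`n` (no collisions, `r = p`). `h` is prime to `φ(n / p)`: a common prime factor `r > y` divides
`p' ^ (b - 1) (p' - 1)` for a prime power `p' ^ b` exactly dividing `n / p`
(`Nat.totient_eq_prod_factorization`), so `r ^ 2 ∣ n` or `r ∣ p' - 1`, and `p' ≠ p`,
`p p' ∣ n`: a collision. Take `s ≡ 1 (mod h)`, `s ≡ 0 (mod φ(n / p))` and use
`Nat.totient_dvd_of_dvd`, `Nat.ModEq.pow_totient`. -/
def S_GOOD : Prop := ∀ (l f n p : ℕ) (y : ℝ), l.Prime → 1 ≤ f → ((l ^ f : ℕ) : ℝ) ≤ y → 0 < n →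
  p.Prime → p ∣ n → 4 * l ∣ p + 1 →
  (∀ r : ℕ, r.Prime → 3 ≤ r → (r : ℝ) ≤ y → ¬ r ∣ p - 1) → ¬ Coll y n → GoodP (l ^ f) n p

/-- `n` has many good primes. -/
def ManyGood (q : ℕ) (η : ℝ) (n : ℕ) : Prop := ∃ S : Finset ℕ, (∀ p ∈ S, GoodP q n p) ∧
  Real.log (Real.log n) ^ (1 - η) ≤ S.card ∧
  ∑ p ∈ S, (1 : ℝ) / p < 1 / Real.log (Real.log n)

open Classical in
/-- NT. Almost all numbers have many good primes (from LOW, TUR, COL, GOOD). -/
def S_NT : Prop := ∀ l f : ℕ, l.Prime → 1 ≤ f → ∀ η : ℝ, 0 < η → η < 1 →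
  Filter.Tendsto (fun N : ℕ =>
    (((range N).filter (fun n => ¬ ManyGood (l ^ f) η n)).card : ℝ) / N) Filter.atTop (nhds 0)

end Pool.Agent.H144.CY
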